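import Mathlib

/-! Steiner triple systems with a group of automorphisms acting freely on all points, or on all
points but one: parallel classes from orbits of blocks (used for MP_981d7d_co). -/

set_option autoImplicit false
set_option linter.unusedSectionVars false

namespace Pool.Agent.H98.ST

open Finset

variable {V : Type} [Fintype V] [DecidableEq V]

/-- `T` is a Steiner triple system on `V` -/
structure IsSTS (T : Finset (Finset V)) : Prop where
  three : ∀ t ∈ T, t.card = 3
  pair : ∀ x y : V, x ≠ y → ∃! t, t ∈ T ∧ x ∈ t ∧ y ∈ t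

variable {T : Finset (Finset V)}

theorem exists_third (h : IsSTS T) (x y : V) (hxy : x ≠ y) :
    ∃ z, z ≠ x ∧ z ≠ y ∧ ({x, y, z} : Finset V) ∈ T := by
  obtain ⟨t, ⟨ht, hx, hy⟩, -⟩ := h.pair x y hxy
  have h3 := h.three t ht
  have hsub : ({x, y} : Finset V) ⊆ t := by
    intro a ha
    simp only [mem_insert, mem_singleton] at ha
    rcases ha with rfl | rfl <;> assumption
  have hc : ({x, y} : Finset V).card = 2 := card_pair hxy
  have hne : (t \ {x, y}).card = 1 := by
    rw [card_sdiff_of_subset hsub, h3, hc]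
  obtain ⟨z, hz⟩ := card_eq_one.1 hne
  have hzm : z ∈ t \ {x, y} := by rw [hz]; exact mem_singleton_self z
  simp only [mem_sdiff, mem_insert, mem_singleton, not_or] at hzm
  refine ⟨z, hzm.2.1, hzm.2.2, ?_⟩
  have : ({x, y, z} : Finset V) = t := by
    have h1 : t = {x, y} ∪ (t \ {x, y}) := (union_sdiff_of_subset hsub).symm
    rw [h1, hz]
    ext a
    simp only [mem_insert, mem_singleton, mem_union]
    tauto
  rw [this]
  exact ht

/-- the third point of the block through `x` and `y` -/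
noncomputable def th (h : IsSTS T) (x y : V) : V :=
  if hxy : x ≠ y then (exists_third h x y hxy).choose else x

theorem th_spec (h : IsSTS T) {x y : V} (hxy : x ≠ y) :
    th h x y ≠ x ∧ th h x y ≠ y ∧ ({x, y, th h x y} : Finset V) ∈ T := by
  unfold th
  rw [dif_pos hxy]
  exact (exists_third h x y hxy).choose_spec

theorem th_unique (h : IsSTS T) {x y z : V} (hxy : x ≠ y) (hzx : z ≠ x) (hzy : z ≠ y)
    (hz : ({x, y, z} : Finset V) ∈ T) : z = th h x y := by
  obtain ⟨h1, h2, h3⟩ := th_spec h hxy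
  have := (h.pair x y hxy).unique (y₁ := {x, y, z}) (y₂ := {x, y, th h x y})
    ⟨hz, by simp, by simp⟩ ⟨h3, by simp, by simp⟩
  have hm : z ∈ ({x, y, th h x y} : Finset V) := by rw [← this]; simp
  simp only [mem_insert, mem_singleton] at hm
  tauto

theorem th_comm (h : IsSTS T) {x y : V} (hxy : x ≠ y) : th h y x = th h x y := by
  obtain ⟨h1, h2, h3⟩ := th_spec h hxy
  symm
  apply th_unique h hxy.symm h2 h1
  have : ({y, x, th h x y} : Finset V) = {x, y, th h x y} := by
    ext a; simp only [mem_insert, mem_singleton]; tauto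
  rw [this]; exact h3

theorem th_th (h : IsSTS T) {x y : V} (hxy : x ≠ y) : th h x (th h x y) = y := by
  obtain ⟨h1, h2, h3⟩ := th_spec h hxy
  symm
  apply th_unique h h1.symm hxy.symm h2.symm
  have : ({x, th h x y, y} : Finset V) = {x, y, th h x y} := by
    ext a; simp only [mem_insert, mem_singleton]; tauto
  rw [this]; exact h3

variable {G : Type} [Group G] [Fintype G] [MulAction G V]

/-- `x` and `y` are in one orbit -/
def Rel (G : Type) [Group G] [MulAction G V] (x y : V) : Prop := ∃ g : G, g • x = y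

theorem Rel.symm {x y : V} (h : Rel G x y) : Rel G y x := by
  obtain ⟨g, rfl⟩ := h
  exact ⟨g⁻¹, by simp⟩

theorem Rel.refl (x : V) : Rel G x x := ⟨1, by simp⟩

variable {W : Finset V}

theorem card_rel (hW : ∀ (g : G) (x : V), x ∈ W → g • x ∈ W)
    (hfree : ∀ (g : G) (x : V), x ∈ W → g • x = x → g = 1) [DecidablePred fun p : V × V => Rel G p.1 p.2] :
    ((W ×ˢ W).filter (fun p => Rel G p.1 p.2)).card = W.card * Fintype.card G := by
  classical
  have : (W ×ˢ W).filter (fun p => Rel G p.1 p.2) =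
      (W ×ˢ (univ : Finset G)).image (fun q : V × G => (q.1, q.2 • q.1)) := by
    ext ⟨x, y⟩
    simp only [mem_filter, mem_product, mem_image, mem_univ, and_true, Prod.mk.injEq, Prod.exists]
    constructor
    · rintro ⟨⟨hx, hy⟩, g, hg⟩
      exact ⟨x, g, hx, rfl, hg⟩
    · rintro ⟨a, g, ha, rfl, rfl⟩
      exact ⟨⟨ha, hW g a ha⟩, g, rfl⟩
  rw [this, card_image_of_injOn, card_product, card_univ]
  rintro ⟨x, g⟩ hx ⟨y, k⟩ - hxy
  simp only [coe_product, Set.mem_prod, mem_coe] at hx
  simp only [Prod.mk.injEq] at hxy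
  obtain ⟨rfl, h2⟩ := hxy
  have : (k⁻¹ * g) • x = x := by rw [mul_smul, h2, inv_smul_smul]
  have h3 := hfree _ x hx.1 this
  have : g = k := by
    have := congrArg (k * ·) h3
    simpa using this
  rw [this]

theorem th_smul (h : IsSTS T) (hT : ∀ (g : G), ∀ t ∈ T, t.image (fun x => g • x) ∈ T) (g : G)
    {x y : V} (hxy : x ≠ y) : th h (g • x) (g • y) = g • th h x y := by
  obtain ⟨h1, h2, h3⟩ := th_spec h hxy
  symm
  apply th_unique h
  · intro he; exact hxy (MulAction.injective g he)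
  · intro he; exact h1 (MulAction.injective g he)
  · intro he; exact h2 (MulAction.injective g he)
  · have := hT g _ h3
    simpa only [image_insert, image_singleton] using this

/-- no block through a point of `W` has two points outside `W` -/
theorem th_mem (h : IsSTS T) (hT : ∀ (g : G), ∀ t ∈ T, t.image (fun x => g • x) ∈ T)
    (hW : ∀ (g : G) (x : V), x ∈ W → g • x ∈ W)
    (hfree : ∀ (g : G) (x : V), x ∈ W → g • x = x → g = 1)
    (hfix : ∀ (g : G) (x : V), x ∉ W → g • x = x) (hG : ∃ g : G, g ≠ 1)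
    {x o : V} (hx : x ∈ W) (ho : o ∉ W) : th h x o ∈ W := by
  by_contra hz
  have hxo : x ≠ o := fun he => ho (he ▸ hx)
  obtain ⟨g, hg⟩ := hG
  obtain ⟨h1, h2, h3⟩ := th_spec h hxo
  have e1 := th_smul h hT g hxo
  rw [hfix g o ho, hfix g _ hz] at e1
  have hgo : g • x ≠ o := fun he => ho (he ▸ hW g x hx)
  have e2 := th_th h hgo.symm
  have e3 := th_th h hxo.symm
  rw [th_comm h hgo, e1] at e2
  rw [th_comm h hxo] at e3
  rw [e2] at e3
  exact hg (hfree g x hx e3)

/-- the orbit of `x` -/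
def orb (G : Type) [Group G] [Fintype G] [MulAction G V] (x : V) : Finset V :=
  (univ : Finset G).image (fun g => g • x)

theorem mem_orb {x y : V} : y ∈ orb G x ↔ Rel G x y := by
  simp [orb, Rel]

theorem orb_card (hfree : ∀ (g : G) (x : V), x ∈ W → g • x = x → g = 1) {x : V} (hx : x ∈ W) :
    (orb G x).card = Fintype.card G := by
  unfold orb
  rw [card_image_of_injective, card_univ]
  intro a b hab
  simp only at hab
  have h1 : (b⁻¹ * a) • x = x := by rw [mul_smul, hab, inv_smul_smul]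
  have h2 := hfree _ x hx h1
  have := congrArg (b * ·) h2
  simpa using this

theorem orb_sub (hW : ∀ (g : G) (x : V), x ∈ W → g • x ∈ W) {x : V} (hx : x ∈ W) :
    orb G x ⊆ W := by
  intro y hy
  obtain ⟨g, rfl⟩ := mem_orb.1 hy
  exact hW g x hx

theorem Rel.trans {x y z : V} (h1 : Rel G x y) (h2 : Rel G y z) : Rel G x z := by
  obtain ⟨g, rfl⟩ := h1
  obtain ⟨k, rfl⟩ := h2
  exact ⟨k * g, by rw [mul_smul]⟩

theorem orb_disj {x y : V} (hxy : ¬ Rel G x y) : Disjoint (orb G x) (orb G y) := by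
  rw [Finset.disjoint_left]
  intro u hu hu'
  exact hxy ((mem_orb.1 hu).trans (mem_orb.1 hu').symm)

/-- A point outside `W` pairs at least one of the three orbits with itself. -/
theorem inner_ge (h : IsSTS T) (hT : ∀ (g : G), ∀ t ∈ T, t.image (fun x => g • x) ∈ T)
    (hW : ∀ (g : G) (x : V), x ∈ W → g • x ∈ W)
    (hfree : ∀ (g : G) (x : V), x ∈ W → g • x = x → g = 1)
    (hfix : ∀ (g : G) (x : V), x ∉ W → g • x = x) (hG : ∃ g : G, g ≠ 1)
    (hc : W.card = 3 * Fintype.card G) {o : V} (ho : o ∉ W)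
    [DecidablePred fun x : V => Rel G x (th h x o)] :
    Fintype.card G ≤ (W.filter (fun x => Rel G x (th h x o))).card := by
  have hg0 : 0 < Fintype.card G := Fintype.card_pos
  have hne : ∀ x ∈ W, x ≠ o := fun x hx he => ho (he ▸ hx)
  have hmem : ∀ x ∈ W, th h x o ∈ W := fun x hx => th_mem h hT hW hfree hfix hG hx ho
  have hinv : ∀ x ∈ W, th h (th h x o) o = x := by
    intro x hx
    have h1 := th_th h (hne x hx).symm
    rw [th_comm h (hne x hx)] at h1
    rw [th_comm h (hne _ (hmem x hx)).symm] at *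
    exact h1
  have hsm : ∀ (g : G), ∀ x ∈ W, th h (g • x) o = g • th h x o := by
    intro g x hx
    have := th_smul h hT g (hne x hx)
    rwa [hfix g o ho] at this
  have hex : ∃ x ∈ W, Rel G x (th h x o) := by
    by_contra hno
    push Not at hno
    obtain ⟨x1, hx1⟩ := card_pos.1 (show 0 < W.card by omega)
    have hy1 := hmem x1 hx1
    have hd12 := orb_disj (hno x1 hx1)
    have hc12 : (orb G x1 ∪ orb G (th h x1 o)).card = 2 * Fintype.card G := by
      rw [card_union_of_disjoint hd12, orb_card hfree hx1, orb_card hfree hy1]; ring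
    obtain ⟨x3, hx3, hx3'⟩ := exists_mem_notMem_of_card_lt_card
      (show (orb G x1 ∪ orb G (th h x1 o)).card < W.card by rw [hc12, hc]; omega)
    have hn1 : ¬ Rel G x1 x3 := fun hr => hx3' (mem_union_left _ (mem_orb.2 hr))
    have hn2 : ¬ Rel G (th h x1 o) x3 := fun hr => hx3' (mem_union_right _ (mem_orb.2 hr))
    have hd3 : Disjoint (orb G x1 ∪ orb G (th h x1 o)) (orb G x3) := by
      rw [disjoint_union_left]
      exact ⟨orb_disj hn1, orb_disj hn2⟩
    have hall : (orb G x1 ∪ orb G (th h x1 o)) ∪ orb G x3 = W := by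
      apply eq_of_subset_of_card_le
      · exact union_subset (union_subset (orb_sub hW hx1) (orb_sub hW hy1)) (orb_sub hW hx3)
      · rw [card_union_of_disjoint hd3, hc12, orb_card hfree hx3, hc]
        omega
    have hz := hmem x3 hx3
    rw [← hall, mem_union, mem_union, mem_orb, mem_orb, mem_orb] at hz
    rcases hz with (⟨g, hg⟩ | ⟨g, hg⟩) | hz
    · apply hn2
      have h1 := hinv x3 hx3
      rw [← hg, hsm g x1 hx1] at h1
      exact ⟨g, h1⟩
    · apply hn1
      have h1 := hinv x3 hx3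
      rw [← hg, hsm g _ hy1, hinv x1 hx1] at h1
      exact ⟨g, h1⟩
    · exact hno x3 hx3 hz
  obtain ⟨x, hx, hr⟩ := hex
  rw [← orb_card hfree hx]
  apply card_le_card
  intro y hy
  obtain ⟨g, rfl⟩ := mem_orb.1 hy
  rw [mem_filter, hsm g x hx]
  exact ⟨hW g x hx, (Rel.symm ⟨g, rfl⟩).trans (hr.trans ⟨g, rfl⟩)⟩

/-- If there are three orbits on `W` then some block meets all of them. -/
theorem exists_transversal (h : IsSTS T) (hT : ∀ (g : G), ∀ t ∈ T, t.image (fun x => g • x) ∈ T)
    (hW : ∀ (g : G) (x : V), x ∈ W → g • x ∈ W)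
    (hfree : ∀ (g : G) (x : V), x ∈ W → g • x = x → g = 1)
    (hfix : ∀ (g : G) (x : V), x ∉ W → g • x = x) (hG : ∃ g : G, g ≠ 1)
    (hc : W.card = 3 * Fintype.card G) :
    ∃ x ∈ W, ∃ y ∈ W, ∃ z ∈ W, ({x, y, z} : Finset V) ∈ T ∧ ¬ Rel G x y ∧ ¬ Rel G x z ∧
      ¬ Rel G y z := by
  classical
  by_contra hno
  push Not at hno
  set g := Fintype.card G with hg
  have hg0 : 0 < g := Fintype.card_pos
  set A := (W ×ˢ W).filter (fun p => ¬ Rel G p.1 p.2) with hA
  set E := (W ×ˢ W).filter (fun p => Rel G p.1 p.2) with hE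
  have hEc : E.card = 3 * g * g := by rw [hE, card_rel hW hfree, hc]
  have hAE : E.card + A.card = W.card * W.card := by
    rw [hE, hA, card_filter_add_card_filter_not, card_product]
  have hAc : A.card = 6 * g * g := by
    rw [hEc, hc] at hAE
    nlinarith
  set B := E.filter (fun p => ¬ p.1 = p.2) with hB
  have hBc : B.card + 3 * g = 3 * g * g := by
    have h1 : (E.filter (fun p => p.1 = p.2)) = W.image (fun x => (x, x)) := by
      ext ⟨x, y⟩
      simp only [hE, mem_filter, mem_product, mem_image, Prod.mk.injEq]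
      constructor
      · rintro ⟨⟨⟨hx, hy⟩, -⟩, hxy⟩
        exact ⟨x, hx, rfl, hxy⟩
      · rintro ⟨a, ha, rfl, rfl⟩
        exact ⟨⟨⟨ha, ha⟩, Rel.refl a⟩, rfl⟩
    have h2 : (E.filter (fun p => p.1 = p.2)).card = 3 * g := by
      rw [h1, card_image_of_injective _ (fun a b hab => (Prod.mk.injEq _ _ _ _ ▸ hab).1), hc]
    have h3 := card_filter_add_card_filter_not (s := E) (fun p : V × V => p.1 = p.2)
    rw [h2, hEc] at h3
    rw [hB]
    linarith
  set B1 := B.filter (fun p => ¬ th h p.1 p.2 ∈ W) with hB1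
  set B2 := B.filter (fun p => th h p.1 p.2 ∈ W) with hB2
  have hB12 : B2.card + B1.card = B.card := by
    rw [hB1, hB2, card_filter_add_card_filter_not]
  have hAne : ∀ p ∈ A, p.1 ≠ p.2 := by
    rintro ⟨x, y⟩ hp he
    simp only [hA, mem_filter] at hp
    simp only at he
    subst he
    exact hp.2 (Rel.refl x)
  have hAW : ∀ p ∈ A, p.1 ∈ W ∧ p.2 ∈ W := fun p hp => by
    simp only [hA, mem_filter, mem_product] at hp
    exact hp.1
  have hBne : ∀ p ∈ B, p.1 ≠ p.2 := fun p hp => (mem_filter.1 hp).2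
  have hBW : ∀ p ∈ B, (p.1 ∈ W ∧ p.2 ∈ W) ∧ Rel G p.1 p.2 := fun p hp => by
    have := (mem_filter.1 hp).1
    simp only [hE, mem_filter, mem_product] at this
    exact this
  set F := (univ : Finset V) \ W with hF
  -- the pairs the third point of which is outside `W`
  set A1 := A.filter (fun p => ¬ th h p.1 p.2 ∈ W) with hA1
  have hdAB : Disjoint A1 B1 := by
    rw [Finset.disjoint_left]
    intro p hp hq
    have h1 := (mem_filter.1 hp).1
    have h2 := (hBW p (mem_filter.1 hq).1).2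
    simp only [hA, mem_filter] at h1
    exact h1.2 h2
  have hAB1 : A1.card + B1.card ≤ 3 * g * F.card := by
    rw [← card_union_of_disjoint hdAB, ← hc, ← card_product]
    apply card_le_card_of_injOn (fun p => (p.1, th h p.1 p.2))
    · intro p hp
      simp only [coe_product, Set.mem_prod, mem_coe]
      rcases mem_union.1 hp with hp | hp
      · exact ⟨(hAW p (mem_filter.1 hp).1).1, by simpa [hF] using (mem_filter.1 hp).2⟩
      · exact ⟨(hBW p (mem_filter.1 hp).1).1.1, by simpa [hF] using (mem_filter.1 hp).2⟩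
    · have hne : ∀ p ∈ A1 ∪ B1, p.1 ≠ p.2 := by
        intro p hp
        rcases mem_union.1 hp with hp | hp
        · exact hAne p (mem_filter.1 hp).1
        · exact hBne p (mem_filter.1 hp).1
      rintro ⟨x, y⟩ hp ⟨x', y'⟩ hq hxx
      simp only [Prod.mk.injEq] at hxx
      obtain ⟨rfl, h2⟩ := hxx
      have h3 := th_th h (hne _ hp)
      have h4 := th_th h (hne _ hq)
      simp only at h3 h4
      rw [h2, h4] at h3
      rw [h3]
  have hB1ge : g * F.card ≤ B1.card := by
    have h1 : ∑ o ∈ F, g ≤ ∑ o ∈ F, (W.filter (fun x => Rel G x (th h x o))).card :=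
      sum_le_sum fun o ho => inner_ge h hT hW hfree hfix hG hc (by simpa [hF] using ho)
    rw [sum_const, smul_eq_mul, ← card_sigma] at h1
    rw [mul_comm]
    refine h1.trans ?_
    have hno' : ∀ q ∈ F.sigma (fun o => W.filter (fun x => Rel G x (th h x o))),
        q.1 ∉ W ∧ q.2 ∈ W ∧ Rel G q.2 (th h q.2 q.1) ∧ q.2 ≠ q.1 := by
      intro q hq
      obtain ⟨h1, h2⟩ := mem_sigma.1 hq
      obtain ⟨h3, h4⟩ := mem_filter.1 h2
      have h5 : q.1 ∉ W := by simpa [hF] using h1
      exact ⟨h5, h3, h4, fun he => h5 (he ▸ h3)⟩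
    apply card_le_card_of_injOn (fun q => (q.2, th h q.2 q.1))
    · intro q hq
      obtain ⟨h1, h2, h3, h4⟩ := hno' q hq
      have h5 := th_mem h hT hW hfree hfix hG h2 h1
      simp only [hB1, hB, hE, coe_filter, mem_filter, mem_product, Set.mem_ofPred_eq]
      refine ⟨⟨⟨⟨h2, h5⟩, h3⟩, (th_spec h h4).1.symm⟩, ?_⟩
      rw [th_th h h4]
      exact h1
    · rintro ⟨o, x⟩ hp ⟨o', x'⟩ hq hxx
      simp only [Prod.mk.injEq] at hxx
      obtain ⟨rfl, h2⟩ := hxx
      have h3 := th_th h (hno' _ hp).2.2.2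
      have h4 := th_th h (hno' _ hq).2.2.2
      simp only at h3 h4
      rw [h2, h4] at h3
      rw [h3]
  have hA2 : (A.filter (fun p => th h p.1 p.2 ∈ W ∧ Rel G p.1 (th h p.1 p.2))).card ≤ B2.card := by
    apply card_le_card_of_injOn (fun p => (p.1, th h p.1 p.2))
    · intro p hp
      obtain ⟨hp1, hp2, hp3⟩ := mem_filter.1 hp
      simp only [hB2, hB, hE, coe_filter, mem_filter, mem_product, Set.mem_ofPred_eq]
      refine ⟨⟨⟨⟨(hAW p hp1).1, hp2⟩, hp3⟩, (th_spec h (hAne _ hp1)).1.symm⟩, ?_⟩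
      rw [th_th h (hAne _ hp1)]
      exact (hAW p hp1).2
    · rintro ⟨x, y⟩ hp ⟨x', y'⟩ hq hxx
      simp only [Prod.mk.injEq] at hxx
      obtain ⟨rfl, h2⟩ := hxx
      have h3 := th_th h (hAne _ (mem_filter.1 hp).1)
      have h4 := th_th h (hAne _ (mem_filter.1 hq).1)
      simp only at h3 h4
      rw [h2, h4] at h3
      rw [h3]
  have hA3 : (A.filter (fun p => th h p.1 p.2 ∈ W ∧ Rel G p.2 (th h p.1 p.2))).card ≤ B2.card := by
    apply card_le_card_of_injOn (fun p => (p.2, th h p.1 p.2))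
    · intro p hp
      obtain ⟨hp1, hp2, hp3⟩ := mem_filter.1 hp
      simp only [hB2, hB, hE, coe_filter, mem_filter, mem_product, Set.mem_ofPred_eq]
      refine ⟨⟨⟨⟨(hAW p hp1).2, hp2⟩, hp3⟩, (th_spec h (hAne _ hp1)).2.1.symm⟩, ?_⟩
      rw [← th_comm h (hAne _ hp1), th_th h (hAne _ hp1).symm]
      exact (hAW p hp1).1
    · rintro ⟨x, y⟩ hp ⟨x', y'⟩ hq hxx
      simp only [Prod.mk.injEq] at hxx
      obtain ⟨rfl, h2⟩ := hxx
      have h3 := th_th h (hAne _ (mem_filter.1 hp).1).symm
      have h4 := th_th h (hAne _ (mem_filter.1 hq).1).symm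
      simp only at h3 h4
      rw [th_comm h (hAne _ (mem_filter.1 hp).1)] at h3
      rw [th_comm h (hAne _ (mem_filter.1 hq).1)] at h4
      simp only at h3 h4
      rw [h2, h4] at h3
      rw [h3]
  have hsub : A ⊆ A1 ∪
      (A.filter (fun p => th h p.1 p.2 ∈ W ∧ Rel G p.1 (th h p.1 p.2)) ∪
        A.filter (fun p => th h p.1 p.2 ∈ W ∧ Rel G p.2 (th h p.1 p.2))) := by
    rintro ⟨x, y⟩ hp
    obtain ⟨hx, hy⟩ := hAW _ hp
    have hne := hAne _ hp
    have hnr : ¬ Rel G x y := by
      simp only [hA, mem_filter] at hp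
      exact hp.2
    simp only at hx hy hne
    simp only [hA1, mem_union, mem_filter, hp, true_and]
    by_cases hz : th h x y ∈ W
    · right
      by_cases h1 : Rel G x (th h x y)
      · left; exact ⟨hz, h1⟩
      · right
        exact ⟨hz, hno x hx y hy _ hz (th_spec h hne).2.2 hnr h1⟩
    · left; exact hz
  have h1 := card_le_card hsub
  have h2 := card_union_le A1
    (A.filter (fun p => th h p.1 p.2 ∈ W ∧ Rel G p.1 (th h p.1 p.2)) ∪
        A.filter (fun p => th h p.1 p.2 ∈ W ∧ Rel G p.2 (th h p.1 p.2)))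
  have h3 := card_union_le (A.filter (fun p => th h p.1 p.2 ∈ W ∧ Rel G p.1 (th h p.1 p.2)))
    (A.filter (fun p => th h p.1 p.2 ∈ W ∧ Rel G p.2 (th h p.1 p.2)))
  have h4 : 6 * g * g = 3 * g * g + 3 * g * g := by ring
  have h5 : 3 * g * F.card = 3 * (g * F.card) := by ring
  omega

/-- Three orbits: the translates of a transversal block partition `W`. -/
theorem three_orbits {T : Finset (Finset V)} (h : IsSTS T)
    (hT : ∀ (g : G), ∀ t ∈ T, t.image (fun x => g • x) ∈ T)
    (hW : ∀ (g : G) (x : V), x ∈ W → g • x ∈ W)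
    (hfree : ∀ (g : G) (x : V), x ∈ W → g • x = x → g = 1)
    (hfix : ∀ (g : G) (x : V), x ∉ W → g • x = x) (hG : ∃ g : G, g ≠ 1)
    (hc : W.card = 3 * Fintype.card G) :
    ∃ M : Finset (Finset V), M ⊆ T ∧ (∀ s ∈ M, ∀ t ∈ M, s ≠ t → Disjoint s t) ∧
      M.biUnion id = W := by
  classical
  obtain ⟨x, hx, y, hy, z, hz, hB, hxy, hxz, hyz⟩ := exists_transversal h hT hW hfree hfix hG hc
  have key : ∀ a ∈ ({x, y, z} : Finset V), ∀ b ∈ ({x, y, z} : Finset V), ∀ g k : G,
      g • a = k • b → g = k := by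
    intro a ha b hb g k hab
    have hr : Rel G a b := ⟨k⁻¹ * g, by rw [mul_smul, hab, inv_smul_smul]⟩
    have haW : a ∈ W := by
      simp only [mem_insert, mem_singleton] at ha
      rcases ha with rfl | rfl | rfl <;> assumption
    have hab' : a = b := by
      simp only [mem_insert, mem_singleton] at ha hb
      rcases ha with rfl | rfl | rfl <;> rcases hb with rfl | rfl | rfl <;>
        first
        | rfl
        | exact absurd hr (by assumption)
        | exact absurd hr.symm (by assumption)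
    subst hab'
    have h1 : (k⁻¹ * g) • a = a := by rw [mul_smul, hab, inv_smul_smul]
    have h2 := hfree _ a haW h1
    have := congrArg (k * ·) h2
    simpa using this
  set B : Finset V := {x, y, z} with hBdef
  have hBW : B ⊆ W := by
    intro a ha
    simp only [hBdef, mem_insert, mem_singleton] at ha
    rcases ha with rfl | rfl | rfl <;> assumption
  let f : G → Finset V := fun g => B.image (fun a => g • a)
  have hdisj : ∀ g k : G, g ≠ k → Disjoint (f g) (f k) := by
    intro g k hgk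
    rw [Finset.disjoint_left]
    intro u hu hu'
    obtain ⟨a, ha, rfl⟩ := mem_image.1 hu
    obtain ⟨b, hb, hab⟩ := mem_image.1 hu'
    exact hgk (key a ha b hb g k hab.symm)
  refine ⟨univ.image f, ?_, ?_, ?_⟩
  · intro t ht
    obtain ⟨g, -, rfl⟩ := mem_image.1 ht
    exact hT g B hB
  · intro s hs t ht hst
    obtain ⟨g, -, rfl⟩ := mem_image.1 hs
    obtain ⟨k, -, rfl⟩ := mem_image.1 ht
    exact hdisj g k (fun h => hst (by rw [h]))
  · apply eq_of_subset_of_card_le
    · intro u hu
      obtain ⟨t, ht, hut⟩ := mem_biUnion.1 hu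
      obtain ⟨g, -, rfl⟩ := mem_image.1 ht
      obtain ⟨a, ha, rfl⟩ := mem_image.1 hut
      exact hW g a (hBW ha)
    · have h1 : (univ.image f).biUnion id = (univ : Finset G).biUnion f := by
        ext u
        simp only [mem_biUnion, mem_image, mem_univ, true_and, id]
        constructor
        · rintro ⟨t, ⟨g, rfl⟩, hu⟩; exact ⟨g, hu⟩
        · rintro ⟨g, hu⟩; exact ⟨f g, ⟨g, rfl⟩, hu⟩
      rw [h1, card_biUnion (fun g _ k _ hgk => hdisj g k hgk)]
      have h2 : ∀ g ∈ (univ : Finset G), (f g).card = 3 := by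
        intro g _
        rw [card_image_of_injective _ (MulAction.injective g)]
        exact h.three B hB
      rw [sum_congr rfl h2, sum_const, card_univ, hc]
      simp [mul_comm]

/-- the number `n` of points is `0` or `1` modulo 3 -/
theorem three_dvd {T : Finset (Finset V)} (h : IsSTS T) :
    3 ∣ Fintype.card V * Fintype.card V - Fintype.card V := by
  classical
  have e : (univ : Finset V).offDiag = T.biUnion (fun t => t.offDiag) := by
    ext ⟨x, y⟩
    simp only [mem_offDiag, mem_univ, true_and, mem_biUnion]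
    constructor
    · intro hxy
      obtain ⟨t, ⟨ht, hx, hy⟩, -⟩ := h.pair x y hxy
      exact ⟨t, ht, hx, hy, hxy⟩
    · rintro ⟨t, ht, hx, hy, hxy⟩
      exact hxy
  have c : (univ : Finset V).offDiag.card = ∑ t ∈ T, 6 := by
    rw [e, card_biUnion]
    · apply sum_congr rfl
      intro t ht
      rw [offDiag_card, h.three t ht]
    · intro t ht t' ht' hne
      change Disjoint t.offDiag t'.offDiag
      rw [Finset.disjoint_left]
      rintro ⟨x, y⟩ hp hq
      obtain ⟨hx, hy, hxy⟩ := mem_offDiag.1 hp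
      obtain ⟨hx', hy', -⟩ := mem_offDiag.1 hq
      exact hne ((h.pair x y hxy).unique ⟨ht, hx, hy⟩ ⟨ht', hx', hy'⟩)
  rw [offDiag_card, card_univ] at c
  rw [c, sum_const, smul_eq_mul]
  exact ⟨T.card * 2, by ring⟩

/-- One orbit and `3 ∣ |G|`: some block has a stabilizer of order three, and its translates
partition `W`. -/
theorem one_orbit {T : Finset (Finset V)} (h : IsSTS T)
    (hT : ∀ (g : G), ∀ t ∈ T, t.image (fun x => g • x) ∈ T)
    (hW : ∀ (g : G) (x : V), x ∈ W → g • x ∈ W)
    (hfree : ∀ (g : G) (x : V), x ∈ W → g • x = x → g = 1)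
    (hfix : ∀ (g : G) (x : V), x ∉ W → g • x = x) (hc : W.card = Fintype.card G)
    (h3 : 3 ∣ Fintype.card G) :
    ∃ M : Finset (Finset V), M ⊆ T ∧ (∀ s ∈ M, ∀ t ∈ M, s ≠ t → Disjoint s t) ∧
      M.biUnion id = W := by
  classical
  have hpos : 0 < W.card := by rw [hc]; exact Fintype.card_pos
  have hG : ∃ g : G, g ≠ 1 := by
    have h1 : 1 < Fintype.card G := by
      obtain ⟨k, hk⟩ := h3
      have : 0 < Fintype.card G := Fintype.card_pos
      omega
    have := Fintype.one_lt_card_iff_nontrivial.1 h1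
    exact exists_ne 1
  obtain ⟨x0, hx0⟩ := card_pos.1 hpos
  have hinj : ∀ a b : G, a • x0 = b • x0 → a = b := by
    intro a b hab
    have h1 : (b⁻¹ * a) • x0 = x0 := by rw [mul_smul, hab, inv_smul_smul]
    have h2 := hfree _ x0 hx0 h1
    have := congrArg (b * ·) h2
    simpa using this
  have hsurj : ∀ w ∈ W, ∃ a : G, a • x0 = w := by
    have h1 : (univ : Finset G).image (fun a => a • x0) = W := by
      apply eq_of_subset_of_card_le
      · intro w hw
        obtain ⟨a, -, rfl⟩ := mem_image.1 hw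
        exact hW a x0 hx0
      · rw [card_image_of_injective _ (fun a b hab => hinj a b hab), card_univ, hc]
    intro w hw
    rw [← h1] at hw
    obtain ⟨a, -, ha⟩ := mem_image.1 hw
    exact ⟨a, ha⟩
  have hx0a : ∀ a : G, a ≠ 1 → x0 ≠ a • x0 := by
    intro a ha he
    exact ha (hfree a x0 hx0 he.symm)
  set D : Finset (G × G) := univ.filter (fun p => p.1 ≠ 1 ∧ p.2 ≠ 1 ∧ p.1 ≠ p.2 ∧
    ({x0, p.1 • x0, p.2 • x0} : Finset V) ∈ T) with hD
  have hmemD : ∀ p : G × G, p ∈ D ↔ (p.1 ≠ 1 ∧ p.2 ≠ 1 ∧ p.1 ≠ p.2 ∧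
    ({x0, p.1 • x0, p.2 • x0} : Finset V) ∈ T) := by
    intro p; simp [hD]
  have hDth : ∀ p ∈ D, p.2 • x0 = th h x0 (p.1 • x0) := by
    intro p hp
    obtain ⟨h1, h2, h4, h5⟩ := (hmemD p).1 hp
    exact th_unique h (hx0a _ h1) (hx0a _ h2).symm (fun he => h4 (hinj _ _ he).symm) h5
  -- the size of `D`
  set A0 : Finset G := univ.filter (fun a => ¬ a = 1) with hA0
  have hA0c : A0.card + 1 = Fintype.card G := by
    have e : A0 = univ.erase 1 := by ext a; simp [hA0]
    rw [e, card_erase_add_one (mem_univ _), card_univ]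
  have hA2 : (A0.filter (fun a => ¬ th h x0 (a • x0) ∈ W)).card = ((univ : Finset V) \ W).card := by
    apply card_bij (fun a _ => th h x0 (a • x0))
    · intro a ha
      simpa using (mem_filter.1 ha).2
    · intro a ha b hb he
      have ha1 : a ≠ 1 := by simpa [hA0] using (mem_filter.1 ha).1
      have hb1 : b ≠ 1 := by simpa [hA0] using (mem_filter.1 hb).1
      have h1 := th_th h (hx0a a ha1)
      have h2 := th_th h (hx0a b hb1)
      rw [he, h2] at h1
      exact (hinj _ _ h1).symm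
    · intro o ho
      have ho' : o ∉ W := by simpa using ho
      have hxo : x0 ≠ o := fun he => ho' (he ▸ hx0)
      obtain ⟨a, ha⟩ := hsurj _ (th_mem h hT hW hfree hfix hG hx0 ho')
      have ha1 : a ≠ 1 := by
        rintro rfl
        rw [one_smul] at ha
        exact (th_spec h hxo).1 ha.symm
      have hto : th h x0 (a • x0) = o := by rw [ha, th_th h hxo]
      refine ⟨a, mem_filter.2 ⟨by simpa [hA0] using ha1, ?_⟩, hto⟩
      rw [hto]; exact ho'
  have hA1 : D.card = (A0.filter (fun a => th h x0 (a • x0) ∈ W)).card := by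
    apply card_bij (fun p _ => p.1)
    · intro p hp
      obtain ⟨h1, h2, h4, h5⟩ := (hmemD p).1 hp
      rw [mem_filter, ← hDth p hp]
      exact ⟨by simpa [hA0] using h1, hW _ _ hx0⟩
    · rintro ⟨a, b⟩ hp ⟨a', b'⟩ hq hab
      simp only at hab
      subst hab
      have h1 := hDth _ hp
      have h2 := hDth _ hq
      simp only at h1 h2
      rw [← h2] at h1
      rw [hinj _ _ h1]
    · intro a ha
      obtain ⟨ha1, ha2⟩ := mem_filter.1 ha
      have ha1 : a ≠ 1 := by simpa [hA0] using ha1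
      obtain ⟨b, hb⟩ := hsurj _ ha2
      obtain ⟨s1, s2, s3⟩ := th_spec h (hx0a a ha1)
      refine ⟨(a, b), (hmemD _).2 ⟨ha1, ?_, ?_, ?_⟩, rfl⟩
      · rintro rfl
        rw [one_smul] at hb
        exact s1 hb.symm
      · simp only
        rintro rfl
        exact s2 hb.symm
      · simp only
        rw [hb]; exact s3
  have hsum := card_filter_add_card_filter_not (s := A0) (fun a => th h x0 (a • x0) ∈ W)
  have hDmod : ¬ 3 ∣ D.card := by
    intro hd
    rw [← hA1, hA2] at hsum
    have hn : (univ \ W).card + W.card = Fintype.card V := by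
      rw [card_sdiff_add_card_eq_card (subset_univ W), card_univ]
    obtain ⟨m, hm⟩ := h3
    obtain ⟨k, hk⟩ := hd
    obtain ⟨s, hs⟩ : ∃ s, Fintype.card V = 3 * s + 2 := ⟨(Fintype.card V - 2) / 3, by omega⟩
    obtain ⟨q, hq⟩ := three_dvd h
    have h9 : Fintype.card V * Fintype.card V = 3 * (3 * s * s + 3 * s) + (3 * s + 2) + 2 := by
      rw [hs]; ring
    omega
  -- the map of order three
  let φ : Function.End D := fun p => ⟨(p.1.1⁻¹ * p.1.2, p.1.1⁻¹), by
    obtain ⟨h1, h2, h4, h5⟩ := (hmemD _).1 p.2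
    rw [hmemD]
    refine ⟨?_, ?_, ?_, ?_⟩
    · intro he
      exact h4 (inv_mul_eq_one.1 he)
    · simpa using h1
    · intro he
      apply h2
      simpa using he
    · have := hT (p.1.1⁻¹) _ h5
      simp only [image_insert, image_singleton, inv_smul_smul] at this
      simp only [mul_smul]
      have e : ({x0, p.1.1⁻¹ • p.1.2 • x0, p.1.1⁻¹ • x0} : Finset V) =
          {p.1.1⁻¹ • x0, x0, p.1.1⁻¹ • p.1.2 • x0} := by
        ext u; simp only [mem_insert, mem_singleton]; tauto
      rw [e]; exact this⟩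
  have hφ : φ ^ 3 ^ 1 = 1 := by
    have h33 : φ ^ 3 ^ 1 = φ * (φ * φ) := by
      rw [pow_one, pow_succ, pow_two, mul_assoc]
    rw [h33]
    funext p
    change φ (φ (φ p)) = p
    apply Subtype.ext
    apply Prod.ext
    · change ((p.1.1⁻¹ * p.1.2)⁻¹ * p.1.1⁻¹)⁻¹ * (p.1.1⁻¹ * p.1.2)⁻¹ = p.1.1
      group
    · change ((p.1.1⁻¹ * p.1.2)⁻¹ * p.1.1⁻¹)⁻¹ = p.1.2
      group
  have : Fact (Nat.Prime 3) := ⟨Nat.prime_three⟩
  have hfix := Equiv.Perm.card_fixedPoints_modEq hφ
  rw [Fintype.card_coe] at hfix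
  have hne : Nonempty (Function.fixedPoints φ) := by
    by_contra hno
    rw [not_nonempty_iff] at hno
    rw [Fintype.card_eq_zero (α := Function.fixedPoints φ)] at hfix
    exact hDmod ((Nat.modEq_zero_iff_dvd).1 hfix)
  obtain ⟨⟨p, hp⟩⟩ := hne
  have hp' : φ p = p := hp
  obtain ⟨h1, h2, h4, h5⟩ := (hmemD _).1 p.2
  obtain ⟨⟨a, b⟩, hab⟩ := p
  have e1 : a⁻¹ * b = a := congrArg (fun q : D => q.1.1) hp'
  have e2 : a⁻¹ = b := congrArg (fun q : D => q.1.2) hp'
  simp only at h1 h2 h4 h5
  have hb : b = a * a := by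
    have := congrArg (a * ·) e1
    simpa using this
  have ha3 : a * a * a = 1 := by
    rw [mul_assoc, ← hb, ← e2, mul_inv_cancel]
  subst hb
  let f : G → Finset V := fun g => {g • x0, (g * a) • x0, (g * a * a) • x0}
  have hfT : ∀ g, f g ∈ T := by
    intro g
    have := hT g _ h5
    simp only [image_insert, image_singleton, ← mul_smul, ← mul_assoc] at this
    exact this
  have hfa : ∀ g, f (g * a) = f g := by
    intro g
    have e : g * a * a * a = g := by
      rw [mul_assoc g a a, mul_assoc g (a * a) a, ha3, mul_one]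
    simp only [f, e]
    ext u; simp only [mem_insert, mem_singleton]; tauto
  have hmem : ∀ g u, u ∈ f g → ∃ k, f k = f g ∧ u = k • x0 := by
    intro g u hu
    simp only [f, mem_insert, mem_singleton] at hu
    rcases hu with hu | hu | hu
    · exact ⟨g, rfl, hu⟩
    · exact ⟨g * a, hfa g, hu⟩
    · exact ⟨g * a * a, by rw [hfa, hfa], hu⟩
  refine ⟨univ.image f, ?_, ?_, ?_⟩
  · intro t ht
    obtain ⟨g, -, rfl⟩ := mem_image.1 ht
    exact hfT g
  · intro s hs t ht hst
    obtain ⟨g, -, rfl⟩ := mem_image.1 hs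
    obtain ⟨k, -, rfl⟩ := mem_image.1 ht
    rw [Finset.disjoint_left]
    intro u hu hu'
    obtain ⟨k1, hk1, e1⟩ := hmem g u hu
    obtain ⟨k2, hk2, e2⟩ := hmem k u hu'
    apply hst
    rw [← hk1, ← hk2, hinj k1 k2 (e1.symm.trans e2)]
  · ext u
    simp only [mem_biUnion, mem_image, mem_univ, true_and, id]
    constructor
    · rintro ⟨t, ⟨g, rfl⟩, hu⟩
      obtain ⟨k, -, rfl⟩ := hmem g u hu
      exact hW k x0 hx0
    · intro hu
      obtain ⟨g, rfl⟩ := hsurj u hu
      exact ⟨f g, ⟨g, rfl⟩, by simp [f]⟩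

theorem both {T : Finset (Finset V)} (h : IsSTS T)
    (hT : ∀ (g : G), ∀ t ∈ T, t.image (fun x => g • x) ∈ T)
    (hfix : ∀ (g : G) (x : V), x ∉ W → g • x = x)
    (hfree : ∀ (g : G) (x : V), x ∈ W → g • x = x → g = 1)
    (hc : (1 < Fintype.card G ∧ W.card = 3 * Fintype.card G) ∨
      (3 ∣ Fintype.card G ∧ W.card = Fintype.card G)) :
    ∃ M : Finset (Finset V), M ⊆ T ∧ (∀ s ∈ M, ∀ t ∈ M, s ≠ t → Disjoint s t) ∧
      M.biUnion id = W := by
  have hW : ∀ (g : G) (x : V), x ∈ W → g • x ∈ W := by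
    intro g x hx
    by_contra hgx
    have h1 := hfix g⁻¹ _ hgx
    rw [inv_smul_smul] at h1
    rw [← h1] at hgx
    exact hgx hx
  rcases hc with ⟨h1, h2⟩ | ⟨h1, h2⟩
  · have := Fintype.one_lt_card_iff_nontrivial.1 h1
    exact three_orbits h hT hW hfree hfix (exists_ne 1) h2
  · exact one_orbit h hT hW hfree hfix h2 h1

theorem card_matching {T M : Finset (Finset V)} (h : IsSTS T) (hM : M ⊆ T)
    (hd : ∀ s ∈ M, ∀ t ∈ M, s ≠ t → Disjoint s t) : (M.biUnion id).card = 3 * M.card := by
  have h1 : (M.biUnion id).card = ∑ t ∈ M, (id t).card :=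
    card_biUnion (fun s hs t ht hst => hd s hs t ht hst)
  rw [h1]
  have h2 : ∀ t ∈ M, (id t).card = 3 := fun t ht => h.three t (hM ht)
  rw [sum_congr rfl h2, sum_const, smul_eq_mul, mul_comm]

theorem extend {T : Finset (Finset V)} (h : IsSTS T)
    {M : Finset (Finset V)} (hM : M ⊆ T) (hd : ∀ s ∈ M, ∀ t ∈ M, s ≠ t → Disjoint s t)
    (hMW : M.biUnion id = W) {M' : Finset (Finset V)} (hM' : M' ⊆ T)
    (hd' : ∀ s ∈ M', ∀ t ∈ M', s ≠ t → Disjoint s t) (hdW : ∀ t ∈ M', Disjoint t W) :
    ∃ N : Finset (Finset V), N ⊆ T ∧ M' ⊆ N ∧ (∀ s ∈ N, ∀ t ∈ N, s ≠ t → Disjoint s t) ∧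
      3 * N.card = 3 * M'.card + W.card := by
  have hsW : ∀ s ∈ M, s ⊆ W := by
    intro s hs u hu
    rw [← hMW]
    exact mem_biUnion.2 ⟨s, hs, hu⟩
  have hdd : ∀ s ∈ M', ∀ t ∈ M, Disjoint s t := fun s hs t ht =>
    (hdW s hs).mono_right (hsW t ht)
  have hMM : Disjoint M' M := by
    rw [Finset.disjoint_left]
    intro s hs hs'
    have h1 := hdd s hs s hs'
    rw [disjoint_self] at h1
    have h2 := h.three s (hM hs')
    rw [h1] at h2
    simp at h2
  refine ⟨M' ∪ M, union_subset hM' hM, subset_union_left, ?_, ?_⟩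
  · intro s hs t ht hst
    rcases mem_union.1 hs with hs | hs <;> rcases mem_union.1 ht with ht | ht
    · exact hd' s hs t ht hst
    · exact hdd s hs t ht
    · exact (hdd t ht s hs).symm
    · exact hd s hs t ht hst
  · rw [card_union_of_disjoint hMM, mul_add, ← card_matching h hM hd, hMW]

end Pool.Agent.H98.ST
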